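import Mathlib

set_option autoImplicit false

namespace Pool.Agent.Results.MP_8ae111_al.JordanQ2

/-- `A` is a Jordan ring: `x y = y x` and `(x^2 y) x = x^2 (y x)`. -/
def IsJordan (A : Type) [NonUnitalNonAssocRing A] : Prop :=
  (∀ x y : A, x * y = y * x) ∧ ∀ x y : A, ((x * x) * y) * x = (x * x) * (y * x)

/-- The derived series of an additive subgroup `B` (for a subring this is its derived series):
`B`, then the additive subgroups generated by all products of two elements of the
previous term. -/
def derived {A : Type} [NonUnitalNonAssocRing A] (B : AddSubgroup A) : ℕ → AddSubgroup A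
  | 0 => B
  | k + 1 => AddSubgroup.closure {z : A | ∃ a ∈ derived B k, ∃ b ∈ derived B k, z = a * b}

/-- `B` is solvable. -/
def IsSolvableSub {A : Type} [NonUnitalNonAssocRing A] (B : AddSubgroup A) : Prop :=
  ∃ k : ℕ, derived B k = ⊥

/-- The fixed subring of a group of ring automorphisms, as an additive subgroup. -/
def fixed {A : Type} [NonUnitalNonAssocRing A] (G : Subgroup (RingAut A)) : AddSubgroup A where
  carrier := {a : A | ∀ g ∈ G, g a = a}
  zero_mem' := fun g _ => map_zero g
  add_mem' := by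
    intro a b ha hb g hg
    rw [map_add, ha g hg, hb g hg]
  neg_mem' := by
    intro a ha g hg
    rw [map_neg, ha g hg]

/-- The assertion of the second question. -/
def Assertion : Prop :=
  ∀ (A : Type) [NonUnitalNonAssocRing A], IsJordan A →
    ∀ G : Subgroup (RingAut A), Finite G → (∀ a : A, Nat.card G • a = 0 → a = 0) →
      IsSolvableSub (fixed G) → IsSolvableSub (⊤ : AddSubgroup A)

/-- The field with four elements as pairs `(a, b)`, standing for `a + b w` with `w^2 = w + 1`. -/
abbrev Q : Type := ZMod 2 × ZMod 2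

/-- Multiplication of the field with four elements. -/
def qm (x y : Q) : Q := (x.1 * y.1 + x.2 * y.2, x.1 * y.2 + x.2 * y.1 + x.2 * y.2)

/-- The conjugate of `x y - z t` in the field with four elements. -/
def qc (x y z t : Q) : Q :=
  let s := qm x y + qm z t
  (s.1 + s.2, s.2)

/-- The space of triples over the field with four elements. -/
def B : Type := Q × Q × Q

instance : AddCommGroup B := inferInstanceAs (AddCommGroup (Q × Q × Q))
instance : Fintype B := inferInstanceAs (Fintype (Q × Q × Q))
instance : DecidableEq B := inferInstanceAs (DecidableEq (Q × Q × Q))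

/-- The conjugate of the cross product. -/
instance : Mul B := ⟨fun x y =>
  ((qc x.2.1 y.2.2 x.2.2 y.2.1, qc x.2.2 y.1 x.1 y.2.2, qc x.1 y.2.1 x.2.1 y.1) : Q × Q × Q)⟩

lemma qm_add (x y z : Q) : qm x (y + z) = qm x y + qm x z := by
  ext <;> simp only [qm, Prod.fst_add, Prod.snd_add] <;> ring

lemma add_qm (x y z : Q) : qm (x + y) z = qm x z + qm y z := by
  ext <;> simp only [qm, Prod.fst_add, Prod.snd_add] <;> ring

instance : NonUnitalNonAssocRing B :=
  { (inferInstance : AddCommGroup B), (inferInstance : Mul B) with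
    left_distrib := by
      rintro ⟨a1, a2, a3⟩ ⟨b1, b2, b3⟩ ⟨c1, c2, c3⟩
      change (_ : Q × Q × Q) = _
      refine Prod.ext ?_ (Prod.ext ?_ ?_) <;>
      · change qc _ (_ + _) _ (_ + _) = qc _ _ _ _ + qc _ _ _ _
        unfold qc
        rw [qm_add, qm_add]
        ext <;> simp only [Prod.fst_add, Prod.snd_add] <;> ring
    right_distrib := by
      rintro ⟨a1, a2, a3⟩ ⟨b1, b2, b3⟩ ⟨c1, c2, c3⟩
      change (_ : Q × Q × Q) = _
      refine Prod.ext ?_ (Prod.ext ?_ ?_) <;>
      · change qc (_ + _) _ (_ + _) _ = qc _ _ _ _ + qc _ _ _ _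
        unfold qc
        rw [add_qm, add_qm]
        ext <;> simp only [Prod.fst_add, Prod.snd_add] <;> ring
    zero_mul := by decide +kernel
    mul_zero := by decide +kernel }

lemma sq_zero : ∀ x : B, x * x = 0 := by decide +kernel

lemma comm : ∀ x y : B, x * y = y * x := by decide +kernel

lemma jordan_B : IsJordan B := by
  refine ⟨comm, ?_⟩
  intro x y
  rw [sq_zero, zero_mul, zero_mul, zero_mul]

/-- Multiplication by `w`. -/
def mw (x : Q) : Q := (x.2, x.1 + x.2)

/-- Multiplication by `w` in each coordinate. -/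
def g0 (x : B) : B := ((mw x.1, mw x.2.1, mw x.2.2) : Q × Q × Q)

lemma g0_cube : ∀ x : B, g0 (g0 (g0 x)) = x := by decide +kernel
lemma g0_add : ∀ x y : B, g0 (x + y) = g0 x + g0 y := by decide +kernel
lemma g0_mul : ∀ x y : B, g0 (x * y) = g0 x * g0 y := by decide +kernel
lemma g0_fix : ∀ x : B, g0 x = x → x = 0 := by decide +kernel

/-- The automorphism of order three. -/
def g : RingAut B where
  toFun := g0
  invFun := fun x => g0 (g0 x)
  left_inv := g0_cube
  right_inv := g0_cube
  map_add' := g0_add
  map_mul' := g0_mul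

lemma g_cube : g ^ 3 = 1 := by
  ext x
  exact g0_cube x

def e1 : B := ((1, 0), (0, 0), (0, 0))
def e2 : B := ((0, 0), (1, 0), (0, 0))
def e3 : B := ((0, 0), (0, 0), (1, 0))

lemma g0_e1 : g0 e1 ≠ e1 := by decide +kernel

lemma g_ne : g ≠ 1 := by
  intro h
  exact g0_e1 (congrArg (fun f : RingAut B => f e1) h)

lemma order_g : orderOf g = 3 :=
  haveI : Fact (Nat.Prime 3) := ⟨Nat.prime_three⟩
  orderOf_eq_prime g_cube g_ne

lemma card_G : Nat.card (Subgroup.zpowers g) = 3 := by
  rw [Nat.card_zpowers, order_g]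

lemma fixed_bot : fixed (Subgroup.zpowers g) = ⊥ := by
  rw [eq_bot_iff]
  intro x hx
  rw [AddSubgroup.mem_bot]
  exact g0_fix x (hx g (Subgroup.mem_zpowers g))

lemma e12 : e1 * e2 = e3 := by decide +kernel
lemma e23 : e2 * e3 = e1 := by decide +kernel
lemma e31 : e3 * e1 = e2 := by decide +kernel

lemma mem_derived (k : ℕ) : e1 ∈ derived (⊤ : AddSubgroup B) k ∧
    e2 ∈ derived (⊤ : AddSubgroup B) k ∧ e3 ∈ derived (⊤ : AddSubgroup B) k := by
  induction k with
  | zero => exact ⟨trivial, trivial, trivial⟩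
  | succ k ih =>
    obtain ⟨h1, h2, h3⟩ := ih
    exact ⟨AddSubgroup.subset_closure ⟨e2, h2, e3, h3, e23.symm⟩,
      AddSubgroup.subset_closure ⟨e3, h3, e1, h1, e31.symm⟩,
      AddSubgroup.subset_closure ⟨e1, h1, e2, h2, e12.symm⟩⟩

lemma not_solvable : ¬ IsSolvableSub (⊤ : AddSubgroup B) := by
  rintro ⟨k, hk⟩
  have h := (mem_derived k).1
  rw [hk, AddSubgroup.mem_bot] at h
  revert h
  decide +kernel

lemma three_smul_eq : ∀ x : B, 3 • x = 0 → x = 0 := by decide +kernel

/-- The assertion of the second question is false. -/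
theorem result : ¬ Assertion := by
  intro h
  refine not_solvable (h B jordan_B (Subgroup.zpowers g) ?_ ?_ ⟨0, fixed_bot⟩)
  · exact Nat.finite_of_card_ne_zero (by rw [card_G]; norm_num)
  · intro a ha
    rw [card_G] at ha
    exact three_smul_eq a ha

end Pool.Agent.Results.MP_8ae111_al.JordanQ2
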